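import Mathlib

namespace Pool.Agent.Results.MP_43ef35_gt.NoCone

open Module

/-- Commutative differential graded `ℚ`-algebras (any `ℤ`-grading is allowed). -/
structure CDGA where
  A : Type
  [ring : Ring A]
  [alg : Algebra ℚ A]
  gr : ℤ → Submodule ℚ A
  int : DirectSum.IsInternal gr
  one_mem : 1 ∈ gr 0
  mul_mem : ∀ {p q a b}, a ∈ gr p → b ∈ gr q → a * b ∈ gr (p + q)
  comm : ∀ {p q a b}, a ∈ gr p → b ∈ gr q → a * b = (-1 : ℚ) ^ (p * q) • (b * a)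
  d : A →ₗ[ℚ] A
  d_mem : ∀ {p a}, a ∈ gr p → d a ∈ gr (p + 1)
  dd : ∀ a, d (d a) = 0
  leib : ∀ {p a} b, a ∈ gr p → d (a * b) = d a * b + (-1 : ℚ) ^ p • (a * d b)

attribute [instance] CDGA.ring CDGA.alg

/-- Cocycles of degree `p`. -/
def CDGA.Z (A : CDGA) (p : ℤ) : Submodule ℚ A.A := A.gr p ⊓ LinearMap.ker A.d

/-- Coboundaries of degree `p`. -/
def CDGA.B (A : CDGA) (p : ℤ) : Submodule ℚ A.A := (A.gr (p - 1)).map A.d

/-- `f` is a CDGA morphism inducing a bijection on cohomology in each degree. -/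
def QIso {A C : CDGA} (f : A.A →ₐ[ℚ] C.A) : Prop :=
  (∀ p a, a ∈ A.gr p → f a ∈ C.gr p) ∧ (∀ a, f (A.d a) = C.d (f a)) ∧
    ∀ p, (∀ c ∈ C.Z p, ∃ a ∈ A.Z p, f a - c ∈ C.B p) ∧ ∀ a ∈ A.Z p, f a ∈ C.B p → a ∈ A.B p

/-- Joined by a zigzag of quasi-isomorphisms. -/
def QI : CDGA → CDGA → Prop := Relation.EqvGen fun A C => ∃ f : A.A →ₐ[ℚ] C.A, QIso f

/-- `(s^{-n} #Q)^p = hom(Q^{n-p}, ℚ)`, as functionals on `Q` concentrated in degree `n - p`. -/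
def CDGA.M (Q : CDGA) (n p : ℤ) : Set (Dual ℚ Q.A) := {f | ∀ j ≠ n - p, ∀ z ∈ Q.gr j, f z = 0}

/-- Poincaré duality in dimension `m` with fundamental class `φ : H^m → ℚ`. -/
def PD (A : CDGA) (m : ℤ) (φ : Dual ℚ A.A) : Prop :=
  1 ∉ A.B 0 ∧ (∀ z ∈ A.Z 0, ∃ c : ℚ, z - c • 1 ∈ A.B 0) ∧
    (∃ S : Finset A.A, LinearMap.ker A.d ≤ Submodule.span ℚ S ⊔ LinearMap.range A.d) ∧
    φ ∈ A.M m 0 ∧ φ ∘ₗ A.d = 0 ∧ ∀ p, ∀ z ∈ A.Z p, (∀ w ∈ A.Z (m - p), φ (z * w) = 0) → z ∈ A.B p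

/-- Data of a presentation of `C` as a cone.  The Koszul signs `ε, δ, β, γ` are arbitrary, so
every sign convention is covered. -/
structure Data (C : CDGA) where
  Q : CDGA
  ε : ℤ → ℤ → ℤˣ
  δ : ℤ → ℤˣ
  β : ℤ → ℤ → ℤˣ
  γ : ℤ → ℤ → ℤˣ
  Ψ : Dual ℚ Q.A →ₗ[ℚ] Q.A
  ι : Q.A →ₐ[ℚ] C.A
  s : Dual ℚ Q.A →ₗ[ℚ] C.A

/-- The differential of `s^{-n} #Q` in degree `p`. -/
def Data.dM {C : CDGA} (K : Data C) (p : ℤ) (f : Dual ℚ K.Q.A) : Dual ℚ K.Q.A := K.δ p • f ∘ₗ K.Q.d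

/-- The action of `q ∈ Q^a` on `f ∈ (s^{-n} #Q)^p`. -/
def Data.act {C : CDGA} (K : Data C) (a p : ℤ) (q : K.Q.A) (f : Dual ℚ K.Q.A) : Dual ℚ K.Q.A :=
  K.ε a p • f ∘ₗ LinearMap.mulLeft ℚ q

def Data.psi {C : CDGA} (K : Data C) (f : Dual ℚ K.Q.A) : K.Q.A := K.Ψ f
def Data.pair {C : CDGA} (K : Data C) (q : K.Q.A) (f : Dual ℚ K.Q.A) : C.A := K.ι q + K.s f
def CDGA.Deg (A : CDGA) (p : ℤ) (a : A.A) : Prop := a ∈ A.gr p
def CDGA.D (A : CDGA) (a : A.A) : A.A := A.d a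

/-- `Ψ : s^{-n} #Q → Q` is a morphism of `Q`-dg-modules. -/
def Mor (n : ℤ) {C : CDGA} (K : Data C) : Prop := ∀ p, ∀ f ∈ K.Q.M n p,
  K.Q.Deg p (K.psi f) ∧ K.psi (K.dM p f) = K.Q.D (K.psi f) ∧
    ∀ a q, K.Q.Deg a q → K.psi (K.act a p q f) = q * K.psi f

/-- `Ψ` is balanced. -/
def Bal (n : ℤ) {C : CDGA} (K : Data C) : Prop := ∀ p r, ∀ x ∈ K.Q.M n p, ∀ y ∈ K.Q.M n r,
  K.act p r (K.psi x) y = K.β p r • K.act r p (K.psi y) x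

/-- `C^p = Q^p ⊕ s M^{p+1}`, where `pair q f` is the element `(q, s f)`. -/
def Graded (n : ℤ) {C : CDGA} (K : Data C) : Prop := ∀ p,
  (∀ c, C.Deg p c ↔ ∃ q, K.Q.Deg p q ∧ ∃ f ∈ K.Q.M n (p + 1), c = K.pair q f) ∧
    ∀ q, K.Q.Deg p q → ∀ f ∈ K.Q.M n (p + 1), K.pair q f = 0 → q = 0 ∧ f = 0

/-- The differential and the semi-trivial product of the cone `Q ⊕_Ψ s s^{-n} #Q`. -/
def Cone (n : ℤ) {C : CDGA} (K : Data C) : Prop := ∀ p, ∀ f ∈ K.Q.M n p,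
  (∀ q, C.D (K.pair q f) = K.pair (K.Q.D q + K.psi f) (-K.dM p f)) ∧
    (∀ a q, K.Q.Deg a q → K.pair q 0 * K.pair 0 f = K.γ a p • K.pair 0 (K.act a p q f)) ∧
    ∀ r, ∀ g ∈ K.Q.M n r, K.pair 0 f * K.pair 0 g = 0

def P (A : CDGA) : Prop := 1 ∉ A.B 0 ∧ (∃ x ∈ A.Z 2, x ∉ A.B 2) ∧
  (∀ x ∈ A.Z 2, x * x ∈ A.B 4 → x ∈ A.B 2) ∧ ∀ u ∈ A.Z 4, ∀ v ∈ A.Z 4, u ∉ A.B 4 → ∃ c : ℚ, v - c • u ∈ A.B 4

lemma d1 (A : CDGA) : A.d 1 = 0 := by simpa using A.leib 1 A.one_mem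

lemma sq (A : CDGA) {x} (h : x ∈ A.Z 2) : x * x ∈ A.Z 4 :=
  ⟨A.mul_mem h.1 h.1, by simp [A.leib x h.1, show A.d x = 0 from h.2]⟩

lemma P_iff {A C : CDGA} {f : A.A →ₐ[ℚ] C.A} (h : QIso f) : P A ↔ P C := by
  obtain ⟨h1, h2, h3⟩ := h
  have z : ∀ {p a}, a ∈ A.Z p → f a ∈ C.Z p := fun h =>
    ⟨h1 _ _ h.1, by simp [← h2, show A.d _ = 0 from h.2]⟩
  have b : ∀ {p a}, a ∈ A.B p → f a ∈ C.B p := by rintro p _ ⟨w, hw, rfl⟩; exact ⟨f w, h1 _ _ hw, (h2 w).symm⟩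
  have i := fun p => (h3 p).2
  have s := fun p => (h3 p).1
  refine and_congr (not_congr ⟨fun e => map_one f ▸ b e, fun e => i 0 1 ⟨A.one_mem, d1 A⟩
    (by simpa using e)⟩) (and_congr ⟨fun ⟨x, e, e'⟩ => ⟨_, z e, mt (i 2 x e) e'⟩, fun ⟨x, e, e'⟩ => ?_⟩
    (and_congr ⟨fun H x e e' => ?_, fun H x e e' => i 2 x e (H _ (z e) (map_mul f x x ▸ b e'))⟩
    ⟨fun H u hu v hv e => ?_, fun H u hu v hv e => ?_⟩))
  · obtain ⟨a, g1, g2⟩ := s 2 x e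
    exact ⟨a, g1, fun g => e' (by simpa using sub_mem (b g) g2)⟩
  · obtain ⟨a, g1, g2⟩ := s 2 x e
    suffices f a * f a - x * x ∈ C.B 4 by
      simpa using sub_mem (b (H a g1 (i 4 _ (sq A g1) (by simpa using add_mem this e')))) g2
    obtain ⟨w, w1, w2⟩ := g2
    refine ⟨w * f a + x * w, add_mem (C.mul_mem w1 (z g1).1) (C.mul_mem e.1 w1), ?_⟩
    simp [C.leib _ w1, C.leib _ e.1, show C.d x = 0 from e.2, show C.d (f a) = 0 from (z g1).2, w2,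
      sub_mul, mul_sub, zpow_two]
  · obtain ⟨a, g1, g2⟩ := s 4 u hu
    obtain ⟨a', g3, g4⟩ := s 4 v hv
    obtain ⟨c, hc⟩ := H a g1 a' g3 fun g => e (by simpa using sub_mem (b g) g2)
    have := add_mem (sub_mem (b hc) g4) ((C.B 4).smul_mem c g2)
    exact ⟨c, by rwa [show f (a' - c • a) - (f a' - v) + c • (f a - u) = v - c • u by
      simp only [map_sub, map_smul, smul_sub]; abel] at this⟩
  · obtain ⟨c, hc⟩ := H _ (z hu) _ (z hv) (mt (i 4 u hu) e)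
    exact ⟨c, i 4 _ (sub_mem hv ((A.Z 4).smul_mem c hu)) (by simpa using hc)⟩

lemma ext {A : CDGA} {f g : Dual ℚ A.A} (h : ∀ j, ∀ z ∈ A.gr j, f z = g z) : f = g :=
  LinearMap.ext fun z => (show ⊤ ≤ LinearMap.eqLocus f g from
    A.int.submodule_iSup_eq_top ▸ iSup_le h) trivial

lemma conc (A : CDGA) (p : ℤ) (φ : Dual ℚ A.A) : ∃ f : Dual ℚ A.A, (∀ z ∈ A.gr p, f z = φ z) ∧
    ∀ j ≠ p, ∀ z ∈ A.gr j, f z = 0 := by
  have h : IsCompl (A.gr p) (⨆ j, ⨆ _ : j ≠ p, A.gr j) := ⟨A.int.submodule_iSupIndep p, by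
    rw [codisjoint_iff, ← iSup_split_single, A.int.submodule_iSup_eq_top]⟩
  exact ⟨LinearMap.ofIsCompl h (φ.domRestrict _) 0, fun z e => LinearMap.ofIsCompl_left_apply h ⟨z, e⟩,
    fun j hj z e => LinearMap.ofIsCompl_right_apply h ⟨z, Submodule.mem_iSup_of_mem j
      (Submodule.mem_iSup_of_mem hj e)⟩⟩

lemma sep (A : CDGA) (p : ℤ) {W : Submodule ℚ A.A} {t} (h1 : W ≤ A.gr p) (h2 : A.B p ≤ W)
    (h3 : t ∈ A.gr p) (h4 : t ∉ W) : ∃ f : Dual ℚ A.A, f t ≠ 0 ∧ (∀ z ∈ W, f z = 0) ∧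
      f ∘ₗ A.d = 0 ∧ ∀ j ≠ p, ∀ z ∈ A.gr j, f z = 0 := by
  obtain ⟨φ, g1, g2⟩ := W.exists_dual_map_eq_bot_of_notMem h4 inferInstance
  obtain ⟨f, g3, g4⟩ := conc A p φ
  have g5 : ∀ z ∈ W, f z = 0 := fun z e => (g3 z (h1 e)).trans (g2.le ⟨z, e, rfl⟩)
  refine ⟨f, (g3 t h3).symm ▸ g1, g5, ext fun j z e => ?_, g4⟩
  by_cases hj : j + 1 = p
  exacts [g5 _ (h2 ⟨z, by simpa [← hj] using e, rfl⟩), g4 _ hj _ (A.d_mem e)]

lemma dM {Q : CDGA} {n p f} (c : ℤˣ) (h : f ∈ Q.M n p) : c • f ∘ₗ Q.d ∈ Q.M n (p + 1) :=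
  fun j hj z e => by simp [h (j + 1) (by omega) _ (Q.d_mem e)]

lemma not_P {C : CDGA} (K : Data C) (H0 : Mor 5 K) (hb : Bal 5 K) (H1 : Graded 5 K) (H2 : Cone 5 K) :
    ¬ P C := by
  have Ψ_mem : ∀ p, ∀ f ∈ K.Q.M 5 p, K.Ψ f ∈ K.Q.gr p := fun p f h => (H0 p f h).1
  have Ψ_d : ∀ p, ∀ f ∈ K.Q.M 5 p, K.Ψ (K.δ p • f ∘ₗ K.Q.d) = K.Q.d (K.Ψ f) :=
    fun p f h => (H0 p f h).2.1
  have gr_iff : ∀ p c, c ∈ C.gr p ↔ ∃ q ∈ K.Q.gr p, ∃ f ∈ K.Q.M 5 (p + 1), c = K.ι q + K.s f :=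
    fun p => (H1 p).1
  have inj : ∀ p, ∀ q ∈ K.Q.gr p, ∀ f ∈ K.Q.M 5 (p + 1), K.ι q + K.s f = 0 → q = 0 ∧ f = 0 :=
    fun p => (H1 p).2
  have dι : ∀ q, C.d (K.ι q) = K.ι (K.Q.d q) := fun q => by
    simpa [Data.pair, CDGA.D, Data.psi, Data.dM] using (H2 0 0 fun _ _ _ _ => rfl).1 q
  have ds : ∀ p, ∀ f ∈ K.Q.M 5 p, C.d (K.s f) = K.ι (K.Ψ f) - K.s (K.δ p • f ∘ₗ K.Q.d) :=
    fun p f h => by
      simpa only [Data.pair, CDGA.D, Data.psi, Data.dM, map_zero, zero_add, map_neg,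
        ← sub_eq_add_neg] using (H2 p f h).1 0
  simp only [Bal, Data.act, Data.psi] at hb
  rintro ⟨p0, ⟨c, c1, c2⟩, p2, p4⟩
  have z0 : ∀ p, (0 : Dual ℚ K.Q.A) ∈ K.Q.M 5 p := fun _ _ _ _ _ => rfl
  have hι : ∀ {p q}, q ∈ K.Q.gr p → K.ι q ∈ C.gr p := fun h => (gr_iff _ _).2 ⟨_, h, 0, z0 _, by simp⟩
  have hs : ∀ {p f}, f ∈ K.Q.M 5 (p + 1) → K.s f ∈ C.gr p := fun h =>
    (gr_iff _ _).2 ⟨0, zero_mem _, _, h, by simp⟩
  have bal : ∀ {p r x y}, x ∈ K.Q.M 5 p → y ∈ K.Q.M 5 r → x (K.Ψ y) = 0 → y (K.Ψ x) = 0 :=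
    fun hx hy e => by simpa [e, smul_eq_zero_iff_eq] using LinearMap.congr_fun (hb _ _ _ hx _ hy) 1
  have dc : ∀ p q f, f ∈ K.Q.M 5 p → C.d (K.ι q + K.s f) =
      K.ι (K.Q.d q + K.Ψ f) + K.s (-(K.δ p • f ∘ₗ K.Q.d)) := fun p q f h => by
    rw [map_add, dι, ds p f h, map_add, map_neg]; abel
  have cmp : ∀ p q q' f f', q ∈ K.Q.gr p → q' ∈ K.Q.gr p → f ∈ K.Q.M 5 (p + 1) →
      f' ∈ K.Q.M 5 (p + 1) → K.ι q + K.s f = K.ι q' + K.s f' → q = q' ∧ f = f' :=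
    fun p q q' f f' a a' b b' e => by
      simpa [sub_eq_zero] using inj p _ (sub_mem a a') (f - f') (fun j hj z e => by
        simp [b j hj z e, b' j hj z e]) (by rw [map_sub, map_sub, sub_add_sub_comm, e, sub_self])
  have ng : ∀ {p f}, f ∈ K.Q.M 5 p → -f ∈ K.Q.M 5 p := fun h j hj z e => by simp [h j hj z e]
  have A4 : ∀ q ∈ K.Q.Z 4, K.ι q ∈ C.B 4 := fun q hq => by_contra fun hn => by
    let Y : Submodule ℚ (Dual ℚ K.Q.A) :=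
      { carrier := {y | y ∈ K.Q.M 5 0 ∧ y ∘ₗ K.Q.d = 0}
        add_mem' := fun a b => ⟨fun j hj z e => by simp [a.1 j hj z e, b.1 j hj z e],
          by simp [LinearMap.add_comp, a.2, b.2]⟩
        zero_mem' := ⟨z0 _, rfl⟩
        smul_mem' := fun c _ a => ⟨fun j hj z e => by simp [a.1 j hj z e],
          by simp [LinearMap.smul_comp, a.2]⟩ }
    obtain ⟨x, x1, x2, x3, x4⟩ := sep K.Q 0 (W := K.Q.B 0 ⊔ Y.map K.Ψ) (sup_le
      (by rintro _ ⟨w, h, rfl⟩; exact K.Q.d_mem h) (by rintro _ ⟨y, h, rfl⟩; exact Ψ_mem _ _ h.1))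
      le_sup_left K.Q.one_mem fun e => by
        obtain ⟨_, ⟨w, w1, rfl⟩, _, ⟨y, y1, rfl⟩, e⟩ := Submodule.mem_sup.1 e
        exact p0 ⟨_, add_mem (hι w1) (hs y1.1), by rw [dc 0 _ _ y1.1, e, y1.2]; simp⟩
    have x5 : x ∈ K.Q.M 5 5 := x4
    obtain ⟨q', q1, q2⟩ : K.Ψ x ∈ K.Q.B 5 := by_contra fun e => by
      obtain ⟨y, y1, -, y3, y4⟩ := sep K.Q 5 (by rintro _ ⟨w, h, rfl⟩; exact K.Q.d_mem h) le_rfl
        (Ψ_mem _ _ x5) e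
      exact y1 (bal x5 (r := 0) y4 (x2 _ (Submodule.mem_sup_right ⟨y, ⟨y4, y3⟩, rfl⟩)))
    obtain ⟨c, w, w1, w2⟩ := p4 _ ⟨hι hq.1, by simp [dι, show K.Q.d q = 0 from hq.2]⟩
      (K.ι (-q') + K.s x) ⟨add_mem (hι (neg_mem q1)) (hs x5), by
        rw [SetLike.mem_coe, LinearMap.mem_ker, dc 5 _ _ x5, x3, map_neg, q2]; simp⟩ hn
    obtain ⟨a, a1, g, g1, rfl⟩ := (gr_iff _ _).1 w1
    rw [dc 4 _ _ g1, add_sub_right_comm, ← map_smul, ← map_sub] at w2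
    have := (cmp 4 _ _ _ _ (add_mem (K.Q.d_mem a1) (Ψ_mem _ _ g1)) (sub_mem (neg_mem q1)
      (Submodule.smul_mem _ c hq.1)) (ng (dM _ g1)) x5 w2).2
    exact x1 (by simp [← this, d1])
  have A2 : ∀ q ∈ K.Q.Z 2, K.ι q ∈ C.B 2 := fun q hq => p2 _
    ⟨hι hq.1, by simp [dι, show K.Q.d q = 0 from hq.2]⟩ (map_mul K.ι q q ▸ A4 _ (sq _ hq))
  obtain ⟨q, q1, x, x1, rfl⟩ := (gr_iff _ _).1 c1.1
  obtain ⟨e1, e2⟩ := inj 3 _ (add_mem (K.Q.d_mem q1) (Ψ_mem _ _ x1)) _ (ng (dM _ x1))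
    ((dc 3 _ _ x1).symm.trans c1.2)
  obtain ⟨φ, hφ⟩ : x.domRestrict (K.Q.gr 2) ∈
      LinearMap.range (K.Q.d.domRestrict (K.Q.gr 2)).dualMap := by
    rw [LinearMap.range_dualMap_eq_dualAnnihilator_ker, Submodule.mem_dualAnnihilator]
    intro z hz
    obtain ⟨w, w1, w2⟩ := A2 z ⟨z.2, hz⟩
    obtain ⟨a, a1, y, y1, rfl⟩ := (gr_iff _ _).1 w1
    rw [dc 2 _ _ y1, ← add_zero (K.ι z), ← K.s.map_zero] at w2
    obtain ⟨e3, e4⟩ := cmp 2 _ _ _ _ (add_mem (K.Q.d_mem a1) (Ψ_mem _ _ y1)) z.2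
      (ng (dM _ y1)) (z0 _) w2
    have e5 : x (K.Ψ y) = 0 := bal (p := 2) y1 x1 (by
      rw [eq_neg_of_add_eq_zero_right e1]; simpa [smul_eq_zero_iff_eq] using LinearMap.congr_fun e4 q)
    have e6 : x (K.Q.d a) = 0 := by simpa [smul_eq_zero_iff_eq] using LinearMap.congr_fun e2 a
    simp [← e3, e5, e6]
  obtain ⟨f, f1, f2⟩ := conc K.Q 3 φ
  have f3 : (K.δ 2)⁻¹ • f ∈ K.Q.M 5 2 := fun j hj z e => by simp [f2 j hj z e]
  have f4 : K.δ 2 • ((K.δ 2)⁻¹ • f) ∘ₗ K.Q.d = x := ext fun j z e => by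
    by_cases hj : j = 2
    · subst hj
      simpa [f1 _ (K.Q.d_mem e), smul_smul] using LinearMap.congr_fun hφ ⟨z, e⟩
    · simp [f2 (j + 1) (by omega) _ (K.Q.d_mem e), x1 j hj z e]
  have f5 := ds 2 _ f3
  have := sub_mem (A2 _ ⟨add_mem q1 (Ψ_mem _ _ f3), by
    rw [SetLike.mem_coe, LinearMap.mem_ker, map_add, ← Ψ_d 2 _ f3, f4, e1]⟩)
    (show C.d (K.s _) ∈ C.B 2 from ⟨_, hs f3, rfl⟩)
  rw [f5, f4, map_add, add_sub_assoc, sub_sub_cancel] at this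
  exact c2 this

def W := Fin 4 → ℚ

instance : AddCommGroup W := inferInstanceAs (AddCommGroup (Fin 4 → ℚ))
instance : Module ℚ W := inferInstanceAs (Module ℚ (Fin 4 → ℚ))
instance : Mul W := ⟨fun u v => ![u 0 * v 0, u 0 * v 1 + u 1 * v 0, u 0 * v 2 + u 2 * v 0,
  u 0 * v 3 + u 3 * v 0 + u 1 * v 1 - 2 * (u 2 * v 2)]⟩
lemma mulW (u v : W) : u * v = ![u 0 * v 0, u 0 * v 1 + u 1 * v 0, u 0 * v 2 + u 2 * v 0,
  u 0 * v 3 + u 3 * v 0 + u 1 * v 1 - 2 * (u 2 * v 2)] := rfl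
lemma addW (u v : W) (i) : (u + v) i = u i + v i := rfl
lemma zeroW (i) : (0 : W) i = 0 := rfl
lemma smulW (c : ℚ) (v : W) (i) : (c • v) i = c * v i := rfl
instance : One W := ⟨![1, 0, 0, 0]⟩
lemma oneW : (1 : W) = ![1, 0, 0, 0] := rfl

instance : CommRing W where
  mul_assoc a b c := funext fun i => by fin_cases i <;> simp [mulW] <;> ring
  mul_comm a b := funext fun i => by fin_cases i <;> simp [mulW] <;> ring
  one_mul a := funext fun i => by fin_cases i <;> simp [mulW, oneW]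
  mul_one a := funext fun i => by fin_cases i <;> simp [mulW, oneW]
  left_distrib a b c := funext fun i => by fin_cases i <;> simp [mulW, addW] <;> ring
  right_distrib a b c := funext fun i => by fin_cases i <;> simp [mulW, addW] <;> ring
  zero_mul a := funext fun i => by fin_cases i <;> simp [mulW, zeroW]
  mul_zero a := funext fun i => by fin_cases i <;> simp [mulW, zeroW]

instance : Algebra ℚ W := Algebra.ofModule
  (fun c a b => funext fun i => by fin_cases i <;> simp [mulW, smulW] <;> ring)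
  fun c a b => funext fun i => by fin_cases i <;> simp [mulW, smulW] <;> ring

def G (s : Set ℤ) : Submodule ℚ W where
  carrier := {v | ∀ i, ![0, 2, 2, 4] i ∉ s → v i = 0}
  add_mem' a b i h := by simp [addW, a i h, b i h]
  zero_mem' _ _ := rfl
  smul_mem' c _ a i h := by simp [smulW, a i h]

lemma memG {p : ℤ} {v : W} : v ∈ G {p} ↔ (p ≠ 0 → v 0 = 0) ∧ (p ≠ 2 → v 1 = 0) ∧
    (p ≠ 2 → v 2 = 0) ∧ (p ≠ 4 → v 3 = 0) := by
  simp [G, Fin.forall_fin_succ, eq_comm (a := p)]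

def AW : CDGA where
  A := W
  gr p := G {p}
  int := (DirectSum.isInternal_submodule_iff_iSupIndep_and_iSup_eq_top _).2 ⟨fun p =>
    Disjoint.mono_right (c := G {p}ᶜ) (iSup₂_le fun j hj v (h : v ∈ G {j}) i e => h i (by
      rintro rfl; exact e hj)) (Submodule.disjoint_def.2 fun v (h : v ∈ G {p}) h' => funext fun i =>
      (em _).elim (fun e => h' i (not_not.2 e)) (h i)), eq_top_iff.2 fun v _ => by
    rw [← Finset.univ_sum_single (M := fun _ => ℚ) v]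
    exact sum_mem fun i _ => Submodule.mem_iSup_of_mem (![0, 2, 2, 4] i) fun j e =>
      Pi.single_eq_of_ne (M := fun _ => ℚ) (by rintro rfl; exact e rfl) _⟩
  one_mem := by simp [memG, oneW]
  mul_mem := by
    intro p q a b ha hb
    simp only [memG, mulW] at ha hb ⊢
    by_cases p = 0 <;> by_cases p = 2 <;> by_cases p = 4 <;> by_cases q = 0 <;> by_cases q = 2 <;>
      by_cases q = 4 <;> simp_all
  comm := by
    intro p q a b ha hb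
    by_cases h : Even p
    · rw [(h.mul_right q).neg_one_zpow, one_smul, mul_comm]
    · obtain rfl : a = 0 := funext fun i => ha i (by rintro rfl; clear ha; revert h i; decide)
      simp
  d := 0
  d_mem _ := zero_mem _
  dd _ := rfl
  leib := by simp

theorem result : ∃ A : CDGA, (∀ p < 0, A.gr p = ⊥) ∧ (∃ φ, PD A 4 φ ∧ ∃ x ∈ A.Z 2, ∃ y ∈ A.Z 2,
    (∀ z ∈ A.Z 2, ∃ a b : ℚ, z - a • x - b • y ∈ A.B 2) ∧
      0 < φ (x * x) ∧ φ (y * y) < 0 ∧ φ (x * y) = 0) ∧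
    ∀ C, QI A C → ¬ ∃ K : Data C, Mor 5 K ∧ Bal 5 K ∧ Graded 5 K ∧ Cone 5 K := by
  have hB : ∀ p (v : W), v ∈ AW.B p ↔ ∀ i, v i = 0 := fun p v =>
    ⟨by rintro ⟨w, -, rfl⟩ i; rfl, fun e => (funext e : v = 0) ▸ zero_mem _⟩
  have hZ : ∀ p (v : W), v ∈ AW.Z p ↔ (p ≠ 0 → v 0 = 0) ∧ (p ≠ 2 → v 1 = 0) ∧
      (p ≠ 2 → v 2 = 0) ∧ (p ≠ 4 → v 3 = 0) := fun p v => ⟨fun h => memG.1 h.1, fun h => ⟨memG.2 h, rfl⟩⟩
  have h1 : ¬ ∀ i, (1 : W) i = 0 := fun e => by simpa [oneW] using e 0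
  refine ⟨AW, fun p hp => eq_bot_iff.2 fun v h => funext fun i => h i (by
    rintro rfl; clear h; revert hp i; decide), ⟨LinearMap.proj (R := ℚ) (φ := fun _ : Fin 4 => ℚ) 3,
    ⟨mt (hB _ _).1 h1, ?_, ?_, ?_, rfl, ?_⟩, ![0, 1, 0, 0], (hZ _ _).2 (by simp), ![0, 0, 1, 0],
    (hZ _ _).2 (by simp), ?_, ?_⟩, fun C h ⟨K, k1, k2, k3, k4⟩ => ?_⟩
  · exact fun (z : W) h => ⟨z 0, (hB _ _).2 fun i => by
      have := (hZ _ _).1 h
      change z i - z 0 * (1 : W) i = 0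
      fin_cases i <;> simp_all [oneW]⟩
  · haveI : Module.Finite ℚ W := inferInstanceAs (Module.Finite ℚ (Fin 4 → ℚ))
    obtain ⟨S, hS⟩ := Module.Finite.fg_top (R := ℚ) (M := W)
    exact ⟨S, le_sup_of_le_left (hS ▸ le_top)⟩
  · exact fun j hj z h => (memG.1 h).2.2.2 hj
  · intro p (z : W) hz h
    have g := (hZ _ _).1 hz
    replace h : ∀ w : W, _ → (z * w) 3 = 0 := fun w e => h w ((hZ _ _).2 e)
    have a := h ![1, 0, 0, 0]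
    have b := h ![0, 1, 0, 0]
    have c := h ![0, 0, 1, 0]
    have d := h ![0, 0, 0, 1]
    refine (hB _ _).2 fun i => ?_
    clear h hz hB hZ
    by_cases p = 0 <;> by_cases p = 2 <;> by_cases p = 4 <;> fin_cases i <;> simp_all [mulW]
  · exact fun (z : W) h => ⟨z 1, z 2, (hB _ _).2 fun i => by
      have := (hZ _ _).1 h
      change z i - z 1 * ![0, 1, 0, 0] i - z 2 * ![0, 0, 1, 0] i = 0
      fin_cases i <;> simp_all⟩
  · change 0 < ((_ : W) * _) 3 ∧ ((_ : W) * _) 3 < 0 ∧ ((_ : W) * _) 3 = 0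
    simp [mulW]
  have key : ∀ A C, QI A C → (P A ↔ P C) := fun A C h => by
    induction h with
    | rel _ _ h => exact P_iff h.choose_spec
    | refl => rfl
    | symm _ _ _ h => exact h.symm
    | trans _ _ _ _ _ h h' => exact h.trans h'
  refine not_P K k1 k2 k3 k4 ((key _ _ h).1 ⟨mt (hB _ _).1 h1, ⟨![0, 1, 0, 0], (hZ _ _).2 (by simp), fun e => by
    simpa using (hB _ _).1 e 1⟩, fun (x : W) h e => ?_, fun (u : W) hu (v : W) hv e => ⟨v 3 / u 3, ?_⟩⟩)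
  · have g := (hZ _ _).1 h
    have e1 : x 1 * x 1 = 2 * (x 2 * x 2) := by
      simpa [mulW, g.1, sub_eq_zero] using (hB _ (x * x)).1 e 3
    have e2 : x 2 = 0 := by_contra fun e2 => irrational_sqrt_two ⟨|x 1 / x 2|, by
      rw [eq_comm, Real.sqrt_eq_iff_mul_self_eq (by norm_num) (by positivity)]
      norm_cast
      rw [abs_mul_abs_self, div_mul_div_comm, e1, mul_div_assoc, div_self (mul_ne_zero e2 e2)]; simp⟩
    refine (hB _ _).2 fun i => ?_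
    fin_cases i <;> simp_all
  · have g := (hZ _ _).1 hu
    have g' := (hZ _ _).1 hv
    have : u 3 ≠ 0 := fun e' => e ((hB _ _).2 fun i => by fin_cases i <;> simp_all)
    refine (hB _ _).2 fun i => ?_
    change v i - v 3 / u 3 * u i = 0
    fin_cases i <;> simp_all

end Pool.Agent.Results.MP_43ef35_gt.NoCone
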